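import Mathlib
import Pool.Agent.Helper874.Odd.Main

set_option autoImplicit false
open scoped Manifold ContDiff

namespace Pool.Agent.Results.MP_d43ca8_gt.OneDoublePoint

/-- Euclidean `n`-space. -/
abbrev E (n : ℕ) : Type := EuclideanSpace ℝ (Fin n)

/-- `M`, modelled on the normed space `F`, is a closed manifold: compact, connected, Hausdorff,
smooth (`C^∞`), without boundary. With `F = E 2` it is a closed surface. -/
def IsClosedManifold (F M : Type) [NormedAddCommGroup F] [NormedSpace ℝ F] [TopologicalSpace M]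
    [ChartedSpace F M] : Prop :=
  IsManifold 𝓘(ℝ, F) ∞ M ∧ CompactSpace M ∧ ConnectedSpace M ∧ T2Space M

/-- The Jacobian determinant of `φ : F → F` is positive at every point of `s`. -/
def PositiveJacobian {F : Type} [NormedAddCommGroup F] [NormedSpace ℝ F] (φ : F → F) (s : Set F) :
    Prop :=
  ∀ z ∈ s, 0 < (fderiv ℝ φ z).det

/-- `M` is orientable: there is a set `A` of charts of the smooth structure of `M` whose domains
cover `M` and all of whose coordinate changes have positive Jacobian determinant. -/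
def Orientable (F M : Type) [NormedAddCommGroup F] [NormedSpace ℝ F] [TopologicalSpace M]
    [ChartedSpace F M] : Prop :=
  ∃ A ⊆ IsManifold.maximalAtlas 𝓘(ℝ, F) ∞ M, (∀ x : M, ∃ e ∈ A, x ∈ e.source) ∧
    ∀ e ∈ A, ∀ e' ∈ A, PositiveJacobian (e.symm ≫ₕ e') (e.symm ≫ₕ e').source

/-- `f` is a smooth (`C^∞`) immersion of the manifold `M`, modelled on `F`, into `G`. -/
def SmoothImmersion (F : Type) {G M : Type} [NormedAddCommGroup F] [NormedSpace ℝ F]
    [NormedAddCommGroup G] [NormedSpace ℝ G] [TopologicalSpace M] [ChartedSpace F M]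
    (f : M → G) : Prop :=
  ContMDiff 𝓘(ℝ, F) 𝓘(ℝ, G) ∞ f ∧ ∀ x : M, Function.Injective (mfderiv 𝓘(ℝ, F) 𝓘(ℝ, G) f x)

/-- `f` is tight: the preimage of every closed half-space is connected (or empty). -/
def Tight {G M : Type} [NormedAddCommGroup G] [InnerProductSpace ℝ G] [TopologicalSpace M]
    (f : M → G) : Prop :=
  ∀ (u : G) (c : ℝ), IsPreconnected (f ⁻¹' {y : G | c ≤ inner ℝ u y})

/-- `f` is substantial: its image lies in no affine hyperplane. -/
def Substantial {G M : Type} [NormedAddCommGroup G] [InnerProductSpace ℝ G] (f : M → G) : Prop :=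
  ∀ (u : G) (c : ℝ), u ≠ 0 → ∃ x : M, inner ℝ u (f x) ≠ c

/-- The double points of `f`: the points with at least two preimages. -/
def doublePoints {G M : Type} (f : M → G) : Set G :=
  {q | ∃ x y : M, x ≠ y ∧ f x = q ∧ f y = q}

/-- The set of double points of `f` is finite and has odd cardinality. -/
def OddNumberOfDoublePoints {G M : Type} (f : M → G) : Prop :=
  (doublePoints f).Finite ∧ Odd (doublePoints f).ncard

/-- The tangent plane of the immersed manifold at `x`: the image of the differential of `f` at `x`,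
a set of vectors of `G`. -/
def tangentPlane (F : Type) {G M : Type} [NormedAddCommGroup F] [NormedSpace ℝ F]
    [NormedAddCommGroup G] [NormedSpace ℝ G] [TopologicalSpace M] [ChartedSpace F M]
    (f : M → G) (x : M) : Set G :=
  {w : G | ∃ a : TangentSpace 𝓘(ℝ, F) x, mfderiv 𝓘(ℝ, F) 𝓘(ℝ, G) f x a = w}

/-- At `q`, two sheets of the surface cross transversally: `q` has exactly two preimages `x`, `y`,
and the tangent planes of the immersed surface at `x` and at `y` together span the space `G`. -/
def TransverseCrossing (F : Type) {G M : Type} [NormedAddCommGroup F] [NormedSpace ℝ F]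
    [NormedAddCommGroup G] [NormedSpace ℝ G] [TopologicalSpace M] [ChartedSpace F M]
    (f : M → G) (q : G) : Prop :=
  ∃ x y : M, x ≠ y ∧ f ⁻¹' {q} = {x, y} ∧
    ∀ w : G, ∃ w₁ ∈ tangentPlane F f x, ∃ w₂ ∈ tangentPlane F f y, w₁ + w₂ = w

/-- `f` has exactly one double point, and it is a transverse crossing of two sheets. -/
def OneTransverseDoublePoint (F : Type) {G M : Type} [NormedAddCommGroup F] [NormedSpace ℝ F]
    [NormedAddCommGroup G] [NormedSpace ℝ G] [TopologicalSpace M] [ChartedSpace F M]
    (f : M → G) : Prop :=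
  (doublePoints f).ncard = 1 ∧ ∀ q ∈ doublePoints f, TransverseCrossing F f q

open Pool.Agent.Helper874.Odd in
/-- There are a closed orientable surface `M` and a tight smooth immersion `f : M → E 4` whose set
of double points is finite of odd cardinality. In fact `f` has exactly one double point, at which
two sheets cross transversally, and `f` is substantial. -/
theorem result : ∃ (M : Type) (_ : TopologicalSpace M) (_ : ChartedSpace (E 2) M) (f : M → E 4),
    IsClosedManifold (E 2) M ∧ Orientable (E 2) M ∧ SmoothImmersion (E 2) f ∧ Tight f ∧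
      OddNumberOfDoublePoints f ∧ OneTransverseDoublePoint (E 2) f ∧ Substantial f := by
  obtain ⟨hC, hMan, hsm, himm, hdet, hker⟩ := main
  have hcomp : CompactSpace MM := isCompact_iff_compactSpace.1 MM_compact
  have hinner : ∀ (u : E 4) (v : V), inner ℝ u (toE v) = hh (u 0, u 1, u 2, u 3) v := by
    intro u v
    rw [toE_apply]
    simp only [PiLp.inner_apply, Fin.sum_univ_four, hh]
    simp [mul_comm]
  have htight : Tight (fun m : MM => toE m.1.1) := by
    intro u c
    have h := MM_conn (u 0, u 1, u 2, u 3) c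
    have e : {m : V × ℝ | m ∈ MM ∧ c ≤ hh (u 0, u 1, u 2, u 3) m.1}
        = Subtype.val '' ((fun m : MM => toE m.1.1) ⁻¹' {y : E 4 | c ≤ inner ℝ u y}) := by
      ext m
      constructor
      · rintro ⟨h1, h2⟩
        refine ⟨⟨m, h1⟩, ?_, rfl⟩
        change c ≤ inner ℝ u (toE m.1)
        rw [hinner]; exact h2
      · rintro ⟨⟨m', h1⟩, h2, rfl⟩
        refine ⟨h1, ?_⟩
        have h3 : c ≤ inner ℝ u (toE m'.1) := h2
        rw [hinner] at h3; exact h3
    rw [e] at h
    exact (Topology.IsInducing.subtypeVal.isPreconnected_image).1 h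
  have hconn : ConnectedSpace MM := by
    have h := htight 0 0
    have e : ((fun m : MM => toE m.1.1) ⁻¹' {y : E 4 | (0:ℝ) ≤ inner ℝ (0 : E 4) y}) = Set.univ := by
      ext m
      simp
    rw [e] at h
    exact { toPreconnectedSpace := ⟨h⟩, toNonempty := MM_nonempty.to_subtype }
  -- the double point
  set q0 : V := (0, -(1 / 4), 0, 0) with hq0
  let x0 : MM := ⟨(q0, 0), MM_pt0⟩
  let x1 : MM := ⟨(q0, lab q0), MM_pt1⟩
  have hlab : lab q0 ≠ 0 := lab_pt
  have hx01 : x1 ≠ x0 := by
    intro h
    have := congrArg (fun m : MM => m.1.2) h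
    exact hlab this
  have hdbl : ∀ x y : MM, x ≠ y → toE x.1.1 = toE y.1.1 →
      (x = x0 ∧ y = x1) ∨ (x = x1 ∧ y = x0) := by
    rintro ⟨⟨v, s⟩, hx⟩ ⟨⟨w, t⟩, hy⟩ hne he
    have hvw : v = w := toE_injective he
    subst hvw
    have hst : s ≠ t := by
      rintro rfl
      exact hne rfl
    obtain ⟨hv, h⟩ := MM_double hx hy hst
    rcases h with ⟨h1, h2⟩ | ⟨h1, h2⟩
    · left
      constructor
      · apply Subtype.ext; simp only [x0]; rw [hv, h1]
      · apply Subtype.ext; simp only [x1]; rw [h2, hv]
    · right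
      constructor
      · apply Subtype.ext; simp only [x1]; rw [h1, hv]
      · apply Subtype.ext; simp only [x0]; rw [hv, h2]
  have hdp : doublePoints (fun m : MM => toE m.1.1) = {toE q0} := by
    ext q
    constructor
    · rintro ⟨x, y, hne, hx, hy⟩
      rcases hdbl x y hne (hx.trans hy.symm) with ⟨h1, -⟩ | ⟨h1, -⟩
      · rw [h1] at hx; exact hx.symm
      · rw [h1] at hx; exact hx.symm
    · rintro rfl
      exact ⟨x1, x0, hx01, rfl, rfl⟩
  have hcard : (doublePoints (fun m : MM => toE m.1.1)).ncard = 1 := by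
    rw [hdp]; exact Set.ncard_singleton _
  refine ⟨MM, inferInstance, hC, fun m => toE m.1.1, ⟨hMan, hcomp, hconn, inferInstance⟩,
    ⟨atlas (E 2) MM, ?_, fun x => ⟨chartAt (E 2) x, chart_mem_atlas _ x, mem_chart_source _ x⟩,
      hdet⟩, ⟨hsm, himm⟩, htight, ⟨?_, ?_⟩, ⟨hcard, ?_⟩, ?_⟩
  · intro e he
    exact IsManifold.subset_maximalAtlas he
  · rw [hdp]; exact Set.finite_singleton _
  · rw [hcard]; exact odd_one
  · intro q hq
    rw [hdp] at hq
    have hq' : q = toE q0 := hq
    subst hq'
    refine ⟨x0, x1, hx01.symm, ?_, ?_⟩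
    · ext m
      constructor
      · intro hm
        have hm' : toE m.1.1 = toE q0 := hm
        by_cases h : m = x0
        · left; exact h
        · right
          rcases hdbl m x0 h hm' with ⟨h1, -⟩ | ⟨h1, -⟩
          · exact absurd h1 h
          · exact h1
      · rintro (rfl | h)
        · rfl
        · have h' : m = x1 := h
          rw [h']; rfl
    · intro w
      obtain ⟨v, rfl⟩ : ∃ v : V, toE v = w := by
        refine ⟨(w 0, w 1, w 2, w 3), ?_⟩
        rw [toE_apply]
        ext i
        fin_cases i <;> rfl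
      obtain ⟨a, ha⟩ := hker .B x0 pt0_B ((v.1 - v.2.1) / 2, -((v.1 - v.2.1) / 2), 0, v.2.2.2)
        (ker_B1 _ _).1 (ker_B1 _ _).2
      obtain ⟨b, hb⟩ := hker .A x1 pt1_A ((v.1 + v.2.1) / 2, (v.1 + v.2.1) / 2, v.2.2.1, 0)
        (ker_A1 _ _).1 (ker_A1 _ _).2
      refine ⟨_, ⟨a, ha⟩, _, ⟨b, hb⟩, ?_⟩
      rw [← map_add]
      congr 1
      ext <;> simp <;> ring
  · intro u c hu
    by_contra hcon
    push Not at hcon
    apply hu
    have h := MM_substantial (u 0, u 1, u 2, u 3) c (fun m hm => by
      rw [← hinner]; exact hcon ⟨m, hm⟩)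
    simp only [Prod.mk_eq_zero] at h
    obtain ⟨h0, h1, h2, h3⟩ := h
    ext i
    fin_cases i
    · exact h0
    · exact h1
    · exact h2
    · exact h3

end Pool.Agent.Results.MP_d43ca8_gt.OneDoublePoint
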